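import Pool.Agent.Helper230.Five.PlaneAll

/-! # The triangles which can be dissected into five mutually similar triangles

Complete classification: the isosceles triangles, the right triangles and five further triangles
(up to similarity). -/

set_option autoImplicit false

namespace Pool.Agent.Results.MP_ad32af_co.FiveSimilarTriangles

open Pool.Agent.Helper230.Five

/-- A triangle is 5-good exactly if it is isosceles, right-angled, or has side lengths
proportional to `4, 5, 6`, to `5, 7, 8`, to `2, 4, 3 √2`, to `1, √r (1 + r), 1 + r ^ 2` with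
`r ^ 3 + r = 1`, or to `p, p + 1 / p, p - 1` with `p ^ 3 = 2 p ^ 2 + p + 1`. -/
theorem result (T : Fin 3 → EuclideanSpace ℝ (Fin 2)) (hT : AffineIndependent ℝ T) :
    FiveGood T ↔
      (∃ σ : Equiv.Perm (Fin 3), dist (T (σ 0)) (T (σ 1)) = dist (T (σ 0)) (T (σ 2))) ∨
      (∃ k : Fin 3, EuclideanGeometry.angle (T (k + 1)) (T k) (T (k + 2)) = Real.pi / 2) ∨
      Shape T 4 6 5 ∨ Shape T 8 5 7 ∨ Shape T 2 4 (3 * Real.sqrt 2) ∨
      (∃ r : ℝ, 0 < r ∧ r ^ 3 + r = 1 ∧ Shape T 1 (Real.sqrt r * (1 + r)) (1 + r ^ 2)) ∨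
      (∃ p : ℝ, 1 < p ∧ p ^ 3 = 2 * p ^ 2 + p + 1 ∧ Shape T p (p + 1 / p) (p - 1)) :=
  five_iff T hT

end Pool.Agent.Results.MP_ad32af_co.FiveSimilarTriangles
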